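import Mathlib
import Pool.Agent.Lib.NK.Chordal

set_option autoImplicit false

namespace Pool.Agent.Results.MP_c62493_co.ChordalCycles

open Finset Pool.Agent.Lib.NK
open scoped Classical

/-- If every directed cycle of length at least 4 of a finite loopless digraph has a chord and the
vertices cannot be 2-coloured with both colour classes acyclic, then the digraph contains a
subdivision of a bioriented cycle of some length at least 3. The conclusion is literally that of
the frozen statement. -/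
theorem result :
    ∀ (V : Type) [Fintype V] (G : Digraph V),
      (∀ v, ¬ G.Adj v v) →
      (∀ (m : ℕ) (c : ℕ → V), 4 ≤ m → (∀ i j, i < m → j < m → c i = c j → i = j) →
        (∀ i, i < m → G.Adj (c i) (c ((i + 1) % m))) →
        ∃ i j, i < m ∧ j < m ∧ j ≠ (i + 1) % m ∧ G.Adj (c i) (c j)) →
      (∀ c : V → Bool, ∃ S : Finset V, S.Nonempty ∧
          (∀ u ∈ S, ∀ v ∈ S, c u = c v) ∧ (∀ u ∈ S, ∃ v ∈ S, G.Adj u v)) →
      ∃ (ℓ : ℕ) (b : ℕ → V) (n : ℕ → Bool → ℕ) (P : ℕ → Bool → ℕ → V),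
        3 ≤ ℓ ∧
        (∀ i j, i < ℓ → j < ℓ → b i = b j → i = j) ∧
        (∀ i, i < ℓ → ∀ d, 1 ≤ n i d) ∧
        (∀ i, i < ℓ →
          P i false 0 = b i ∧ P i false (n i false) = b ((i + 1) % ℓ) ∧
          P i true 0 = b ((i + 1) % ℓ) ∧ P i true (n i true) = b i) ∧
        (∀ i, i < ℓ → ∀ d, ∀ k, k < n i d → G.Adj (P i d k) (P i d (k + 1))) ∧
        (∀ i, i < ℓ → ∀ d, ∀ k, 0 < k → k < n i d → ∀ j, j < ℓ → P i d k ≠ b j) ∧
        (∀ i d k i' d' k', i < ℓ → i' < ℓ → 0 < k → k < n i d → 0 < k' → k' < n i' d' →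
          P i d k = P i' d' k' → i = i' ∧ d = d' ∧ k = k') := by
  intro V _ G hirr hch hcol
  by_cases hN : Neck G.Adj
  · exact hN.concl
  exfalso
  refine (colr_t3 hN _ (univ : Finset V) (le_refl _)
    (fun T _ hT => short_of_not_ac hirr hch hT)).false (fun c => ?_)
  obtain ⟨F, hne, hm, hs⟩ := hcol c
  exact ⟨F, subset_univ F, hne, hm, hs⟩

end Pool.Agent.Results.MP_c62493_co.ChordalCycles
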