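import Mathlib
import Pool.Agent.Lib.TriFive.Fvn

set_option autoImplicit false

namespace Pool.Agent.Results.MP_c62493_co.FeedbackFew

open Finset
open scoped Classical
open Pool.Agent.Lib.TriFive

/-- Let `D` be a finite loopless digraph, `c` at least 2 and `T` a set of at most `c + 1` vertices
such that `D - T` is acyclic. If the vertices of `D` cannot be coloured with `c` colours such that
all colour classes are acyclic, then `D` contains a subdivision of a bioriented cycle of length 3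
or 5. For `c = 2`: the conjecture holds for all digraphs with feedback vertex number at most 3. -/
theorem result :
    ∀ (V : Type) [Fintype V] (G : Digraph V) (c : ℕ) (T : Finset V),
      (∀ v, ¬ G.Adj v v) →
      2 ≤ c →
      T.card ≤ c + 1 →
      (∀ S : Finset V, S.Nonempty → Disjoint S T → ∃ u ∈ S, ∀ v ∈ S, ¬ G.Adj u v) →
      (∀ f : V → Fin c, ∃ S : Finset V, S.Nonempty ∧
          (∀ u ∈ S, ∀ v ∈ S, f u = f v) ∧ (∀ u ∈ S, ∃ v ∈ S, G.Adj u v)) →
      ∃ (ℓ : ℕ) (b : ℕ → V) (n : ℕ → Bool → ℕ) (P : ℕ → Bool → ℕ → V),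
        (ℓ = 3 ∨ ℓ = 5) ∧
        (∀ i j, i < ℓ → j < ℓ → b i = b j → i = j) ∧
        (∀ i, i < ℓ → ∀ d, 1 ≤ n i d) ∧
        (∀ i, i < ℓ →
          P i false 0 = b i ∧ P i false (n i false) = b ((i + 1) % ℓ) ∧
          P i true 0 = b ((i + 1) % ℓ) ∧ P i true (n i true) = b i) ∧
        (∀ i, i < ℓ → ∀ d, ∀ k, k < n i d → G.Adj (P i d k) (P i d (k + 1))) ∧
        (∀ i, i < ℓ → ∀ d, ∀ k, 0 < k → k < n i d → ∀ j, j < ℓ → P i d k ≠ b j) ∧
        (∀ i d k i' d' k', i < ℓ → i' < ℓ → 0 < k → k < n i d → 0 < k' → k' < n i' d' →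
          P i d k = P i' d' k' → i = i' ∧ d = d' ∧ k = k') := by
  intro V _ G c T hirr hc hT hA hcol
  obtain ⟨c, rfl⟩ : ∃ c', c = c' + 2 := ⟨c - 2, by omega⟩
  have hneck : Neck G.Adj 2 ∨ Neck G.Adj 4 := by
    refine fvn_many hirr c univ T (subset_univ _) hT ?_ ?_
    · refine ac_of_sinks fun S hS hne => hA S hne ?_
      rw [disjoint_left]
      exact fun x hx hxT => (mem_sdiff.mp (hS hx)).2 hxT
    · rintro ⟨f, hf⟩
      obtain ⟨S, hne, hm, hs⟩ := hcol f
      exact (hf S (subset_univ _) hm).sink (Subset.refl _) hne hs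
  rcases hneck with h | h
  · obtain ⟨b, n, P, h'⟩ := h.concl (le_refl 2)
    exact ⟨3, b, n, P, Or.inl rfl, h'⟩
  · obtain ⟨b, n, P, h'⟩ := h.concl (by norm_num)
    exact ⟨5, b, n, P, Or.inr rfl, h'⟩

end Pool.Agent.Results.MP_c62493_co.FeedbackFew
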