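import Mathlib
import Pool.Agent.Lib.NK.Conv

set_option autoImplicit false

namespace Pool.Agent.Results.MP_c62493_co.ForestComplement

open Finset Pool.Agent.Lib.NK
open scoped Classical

/-- every nonempty set of vertices of a forest contains a vertex with at most one neighbour in it -/
theorem leaf {V : Type} [Fintype V] {H : SimpleGraph V} (hH : H.IsAcyclic) {T : Finset V}
    (hT : T.Nonempty) : ∃ v ∈ T, ∀ a ∈ T, ∀ b ∈ T, H.Adj v a → H.Adj v b → a = b := by
  obtain ⟨t, ht⟩ := hT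
  have : Nonempty (↑T : Set V) := ⟨⟨t, ht⟩⟩
  have hI : (H.induce (↑T : Set V)).IsAcyclic := hH.induce _
  obtain ⟨F, h1, _, hF⟩ := SimpleGraph.Connected.exists_isTree_le_of_le_of_isAcyclic
    (G := (⊤ : SimpleGraph (↑T : Set V))) SimpleGraph.connected_top le_top hI
  rcases subsingleton_or_nontrivial (↑T : Set V) with hs | hn
  · refine ⟨t, ht, ?_⟩
    intro a ha b hb _ _
    exact congrArg Subtype.val (Subsingleton.elim (⟨a, ha⟩ : (↑T : Set V)) ⟨b, hb⟩)
  · obtain ⟨v, hv⟩ := hF.exists_vert_degree_one_of_nontrivial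
    refine ⟨v.1, v.2, ?_⟩
    intro a ha b hb hva hvb
    have ha' : (⟨a, ha⟩ : (↑T : Set V)) ∈ F.neighborFinset v := by
      rw [SimpleGraph.mem_neighborFinset]; exact h1 hva
    have hb' : (⟨b, hb⟩ : (↑T : Set V)) ∈ F.neighborFinset v := by
      rw [SimpleGraph.mem_neighborFinset]; exact h1 hvb
    rw [← SimpleGraph.card_neighborFinset_eq_degree, Finset.card_eq_one] at hv
    obtain ⟨w, hw⟩ := hv
    rw [hw, mem_singleton] at ha' hb'
    exact congrArg Subtype.val (ha'.trans hb'.symm)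

/-- If the pairs of non-adjacent vertices of a finite loopless digraph form a forest and the
vertices cannot be 2-coloured with both colour classes acyclic, then the digraph contains a
subdivision of a bioriented cycle of some length at least 3. The conclusion is literally that of
the frozen statement. -/
theorem result :
    ∀ (V : Type) [Fintype V] (G : Digraph V),
      (∀ v, ¬ G.Adj v v) →
      (SimpleGraph.fromRel G.Adj)ᶜ.IsAcyclic →
      (∀ c : V → Bool, ∃ S : Finset V, S.Nonempty ∧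
          (∀ u ∈ S, ∀ v ∈ S, c u = c v) ∧ (∀ u ∈ S, ∃ v ∈ S, G.Adj u v)) →
      ∃ (ℓ : ℕ) (b : ℕ → V) (n : ℕ → Bool → ℕ) (P : ℕ → Bool → ℕ → V),
        3 ≤ ℓ ∧
        (∀ i j, i < ℓ → j < ℓ → b i = b j → i = j) ∧
        (∀ i, i < ℓ → ∀ d, 1 ≤ n i d) ∧
        (∀ i, i < ℓ →
          P i false 0 = b i ∧ P i false (n i false) = b ((i + 1) % ℓ) ∧
          P i true 0 = b ((i + 1) % ℓ) ∧ P i true (n i true) = b i) ∧
        (∀ i, i < ℓ → ∀ d, ∀ k, k < n i d → G.Adj (P i d k) (P i d (k + 1))) ∧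
        (∀ i, i < ℓ → ∀ d, ∀ k, 0 < k → k < n i d → ∀ j, j < ℓ → P i d k ≠ b j) ∧
        (∀ i d k i' d' k', i < ℓ → i' < ℓ → 0 < k → k < n i d → 0 < k' → k' < n i' d' →
          P i d k = P i' d' k' → i = i' ∧ d = d' ∧ k = k') := by
  intro V _ G hirr hfor hcol
  by_cases hN : Neck G.Adj
  · exact hN.concl
  exfalso
  have hred := reduce (V := V) (k := 0)
    (fun R S => ∀ T ⊆ S, T.Nonempty → ∃ v ∈ T, ∀ a ∈ T, ∀ b ∈ T, v ≠ a → v ≠ b → a ≠ b →
      (R v a ∨ R a v) ∨ (R v b ∨ R b v))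
    (by
      intro R S R' S' hP hS hR T hT hne
      obtain ⟨v, hv, hv'⟩ := hP T (hT.trans hS) hne
      refine ⟨v, hv, ?_⟩
      intro a ha b hb h1 h2 h3
      rcases hv' a ha b hb h1 h2 h3 with (h | h) | (h | h)
      · exact Or.inl (Or.inl (hR v (hT hv) a (hT ha) h))
      · exact Or.inl (Or.inr (hR a (hT ha) v (hT hv) h))
      · exact Or.inr (Or.inl (hR v (hT hv) b (hT hb) h))
      · exact Or.inr (Or.inr (hR b (hT hb) v (hT hv) h)))
    (by
      intro R S hP hirr' h2 hN'
      have h3 := h2.1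
      obtain ⟨v, hv, hP'⟩ := hP S (Subset.refl S) (card_pos.mp (by omega))
      obtain ⟨A, B, hAB, hA, hB⟩ := base_almost (R := Rin R S) (S := S)
        (fun v hv => hirr' v hv.1) h2.rin hN' hv (by
          intro a ha b hb h3 h4 h5
          rcases hP' a ha b hb h3 h4 h5 with (h | h) | (h | h)
          · exact Or.inl (Or.inl ⟨h, hv, ha⟩)
          · exact Or.inl (Or.inr ⟨h, ha, hv⟩)
          · exact Or.inr (Or.inl ⟨h, hv, hb⟩)
          · exact Or.inr (Or.inr ⟨h, hb, hv⟩))
      exact colr_of_cover hAB hA hB)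
    (univ : Finset V).card G.Adj univ (le_refl _)
    (by
      intro T _ hne
      obtain ⟨v, hv, hv'⟩ := leaf hfor hne
      refine ⟨v, hv, ?_⟩
      intro a ha b hb h1 h2 h3
      by_contra hcon
      push Not at hcon
      obtain ⟨⟨c1, c2⟩, c3, c4⟩ := hcon
      refine h3 (hv' a ha b hb ?_ ?_)
      · rw [SimpleGraph.compl_adj, SimpleGraph.fromRel_adj]
        exact ⟨h1, fun hh => hh.2.elim c1 c2⟩
      · rw [SimpleGraph.compl_adj, SimpleGraph.fromRel_adj]
        exact ⟨h2, fun hh => hh.2.elim c3 c4⟩)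
    hirr (fun h => hN (h.monoR (fun a b hab => hab.1)))
  refine hred.false (fun c => ?_)
  obtain ⟨F, hne, hm, hs⟩ := hcol (fun v => decide (c v = 0))
  refine ⟨F, subset_univ F, hne, ?_, hs⟩
  intro u hu v hv
  have h1 : (c u = 0) ↔ (c v = 0) := by simpa using hm u hu v hv
  by_cases h0 : c u = 0
  · rw [h0, h1.mp h0]
  · have h2 : c v ≠ 0 := fun h => h0 (h1.mpr h)
    have key : ∀ x : Fin 2, x ≠ 0 → x = 1 := by decide
    rw [key _ h0, key _ h2]

end Pool.Agent.Results.MP_c62493_co.ForestComplement
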