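import Mathlib
import Pool.Agent.Lib.NK.Fvs

set_option autoImplicit false

namespace Pool.Agent.Results.MP_c62493_co.FvsThree

open Finset Pool.Agent.Lib.NK
open scoped Classical

/-- If at most three vertices of a finite loopless digraph meet all directed cycles and the
vertices cannot be 2-coloured with both colour classes acyclic, then the digraph contains a
subdivision of a bioriented cycle of some length at least 3. The conclusion is literally that of
the frozen statement. -/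
theorem result :
    ∀ (V : Type) [Fintype V] (G : Digraph V) (T : Finset V),
      (∀ v, ¬ G.Adj v v) →
      T.card ≤ 3 →
      (∀ S : Finset V, S.Nonempty → (∀ u ∈ S, ∃ v ∈ S, G.Adj u v) → ∃ t ∈ T, t ∈ S) →
      (∀ c : V → Bool, ∃ S : Finset V, S.Nonempty ∧
          (∀ u ∈ S, ∀ v ∈ S, c u = c v) ∧ (∀ u ∈ S, ∃ v ∈ S, G.Adj u v)) →
      ∃ (ℓ : ℕ) (b : ℕ → V) (n : ℕ → Bool → ℕ) (P : ℕ → Bool → ℕ → V),
        3 ≤ ℓ ∧
        (∀ i j, i < ℓ → j < ℓ → b i = b j → i = j) ∧
        (∀ i, i < ℓ → ∀ d, 1 ≤ n i d) ∧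
        (∀ i, i < ℓ →
          P i false 0 = b i ∧ P i false (n i false) = b ((i + 1) % ℓ) ∧
          P i true 0 = b ((i + 1) % ℓ) ∧ P i true (n i true) = b i) ∧
        (∀ i, i < ℓ → ∀ d, ∀ k, k < n i d → G.Adj (P i d k) (P i d (k + 1))) ∧
        (∀ i, i < ℓ → ∀ d, ∀ k, 0 < k → k < n i d → ∀ j, j < ℓ → P i d k ≠ b j) ∧
        (∀ i d k i' d' k', i < ℓ → i' < ℓ → 0 < k → k < n i d → 0 < k' → k' < n i' d' →
          P i d k = P i' d' k' → i = i' ∧ d = d' ∧ k = k') := by
  intro V _ G T hirr hT hmeet hcol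
  by_cases hN : Neck G.Adj
  · exact hN.concl
  exfalso
  -- at least three vertices
  have hV : 3 ≤ Fintype.card V := by
    by_contra hlt
    obtain ⟨c⟩ := Function.Embedding.nonempty_of_card_le (α := V) (β := Bool)
      (by rw [Fintype.card_bool]; omega)
    obtain ⟨S, ⟨u, hu⟩, hm, hs⟩ := hcol c
    obtain ⟨v, hv, huv⟩ := hs u hu
    have := c.injective (hm u hu v hv)
    subst this
    exact hirr _ huv
  obtain ⟨T', hTT', hT'⟩ : ∃ T' : Finset V, T ⊆ T' ∧ T'.card = 3 := by
    obtain ⟨T', h1, _, h3⟩ := Finset.exists_subsuperset_card_eq (Finset.subset_univ T) hT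
      (by rw [Finset.card_univ]; exact hV)
    exact ⟨T', h1, h3⟩
  obtain ⟨a, b, c, hab, hac, hbc, habc⟩ := Finset.card_eq_three.mp hT'
  have hA : Ac G.Adj (univ \ T') := by
    by_contra hac'
    obtain ⟨g, hg, hC, x, hx, y, hy, hne⟩ := exists_circ_of_not_ac hirr hac'
    obtain ⟨t, ht, htg⟩ := hmeet g ⟨x, hx⟩ (by
      intro u hu
      obtain ⟨v, hv, huv⟩ : ∃ v ∈ g, u ≠ v := by
        by_cases h : u = x
        · exact ⟨y, hy, fun h' => hne (h.symm.trans h')⟩
        · exact ⟨x, hx, h⟩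
      rcases (hC.link hu hv huv).rc.cases_head with h | ⟨w, hw, h⟩
      · exact absurd h huv
      · exact ⟨w, h.left, hw⟩)
    exact (mem_sdiff.mp (hg htg)).2 (hTT' ht)
  obtain ⟨B, C, hcov, hB, hC⟩ := fvs3 hirr hN hA (a := a) (b := b) (c := c)
    (by simp [habc]) (by simp [habc]) (by simp [habc]) hab hac hbc
  obtain ⟨S, hne, hm, hs⟩ := hcol (fun v => decide (v ∈ B))
  obtain ⟨u0, hu0⟩ := hne
  by_cases h0 : u0 ∈ B
  · refine hB.sink (S := S) ?_ ⟨u0, hu0⟩ hs
    intro v hv
    have := hm u0 hu0 v hv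
    simpa [h0] using this
  · refine hC.sink (S := S) ?_ ⟨u0, hu0⟩ hs
    intro v hv
    have h1 := hm u0 hu0 v hv
    have h2 : v ∉ B := by simpa [h0] using h1
    have h3 : v ∈ B ∪ C := hcov (by
      by_cases h : v ∈ T'
      · rw [habc] at h
        simp only [mem_insert, mem_singleton] at h ⊢
        tauto
      · simp [h])
    exact (mem_union.mp h3).resolve_left h2

end Pool.Agent.Results.MP_c62493_co.FvsThree
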