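import Mathlib
import Pool.Agent.Lib.TriFive.MatchG

set_option autoImplicit false

namespace Pool.Agent.Results.MP_c62493_co.MatchingCover

open Finset
open scoped Classical
open Pool.Agent.Lib.TriFive

/-- Let `D` be a finite loopless digraph, `c` at least 2 and `T` a set of at most `c - 1` vertices.
Assume that (A) any two directed cycles of `D - T` with a common vertex have a second common
vertex, or (B) there is an involution `f` on the vertices (so the pairs `v`, `f v` with `f v ≠ v`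
are disjoint) such that every directed cycle of `D - T` contains both vertices of such a pair. If
the vertices of `D` cannot be coloured with `c` colours such that all colour classes are acyclic,
then `D` contains a subdivision of the bioriented triangle. -/
theorem result :
    ∀ (V : Type) [Fintype V] (G : Digraph V) (c : ℕ) (T : Finset V),
      (∀ v, ¬ G.Adj v v) →
      2 ≤ c →
      T.card + 1 ≤ c →
      ((∀ (m n : ℕ) (a b : ℕ → V), 2 ≤ m → 2 ≤ n →
          (∀ i j, i < m → j < m → a i = a j → i = j) →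
          (∀ i j, i < n → j < n → b i = b j → i = j) →
          (∀ i, i < m → a i ∉ T ∧ G.Adj (a i) (a ((i + 1) % m))) →
          (∀ i, i < n → b i ∉ T ∧ G.Adj (b i) (b ((i + 1) % n))) →
          a 0 = b 0 → ∃ i j, 0 < i ∧ i < m ∧ 0 < j ∧ j < n ∧ a i = b j) ∨
        (∃ f : V → V, (∀ v, f (f v) = v) ∧
          ∀ S : Finset V, S.Nonempty → Disjoint S T → (∀ u ∈ S, ∃ v ∈ S, G.Adj u v) →
            ∃ v ∈ S, f v ∈ S ∧ f v ≠ v)) →
      (∀ g : V → Fin c, ∃ S : Finset V, S.Nonempty ∧
          (∀ u ∈ S, ∀ v ∈ S, g u = g v) ∧ (∀ u ∈ S, ∃ v ∈ S, G.Adj u v)) →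
      ∃ (b : ℕ → V) (n : ℕ → Bool → ℕ) (P : ℕ → Bool → ℕ → V),
        (∀ i j, i < 3 → j < 3 → b i = b j → i = j) ∧
        (∀ i, i < 3 → ∀ d, 1 ≤ n i d) ∧
        (∀ i, i < 3 →
          P i false 0 = b i ∧ P i false (n i false) = b ((i + 1) % 3) ∧
          P i true 0 = b ((i + 1) % 3) ∧ P i true (n i true) = b i) ∧
        (∀ i, i < 3 → ∀ d, ∀ k, k < n i d → G.Adj (P i d k) (P i d (k + 1))) ∧
        (∀ i, i < 3 → ∀ d, ∀ k, 0 < k → k < n i d → ∀ j, j < 3 → P i d k ≠ b j) ∧
        (∀ i d k i' d' k', i < 3 → i' < 3 → 0 < k → k < n i d → 0 < k' → k' < n i' d' →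
          P i d k = P i' d' k' → i = i' ∧ d = d' ∧ k = k') := by
  intro V _ G c T hirr hc hT hcov hcol
  obtain ⟨c, rfl⟩ : ∃ c', c = c' + 2 := ⟨c - 2, by omega⟩
  have hcol' : ¬ Colr G.Adj (Fin (c + 2)) univ := by
    rintro ⟨g, hg⟩
    obtain ⟨S, hne, hm, hs⟩ := hcol g
    exact (hg S (subset_univ _) hm).sink (Subset.refl _) hne hs
  have hneck : Neck G.Adj 2 := by
    rcases hcov with hno | ⟨f, hf, hcov⟩
    · refine Match.share_many hirr c univ T (subset_univ _) (by omega) ?_ hcol'
      intro v C1 hC1 C2 hC2 hc1 hc2 hv1 hv2 hx1 hx2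
      obtain ⟨m, a, hm, ha0, hai, haa, haC⟩ := Match.circ_fn hc1 hv1 hx1
      obtain ⟨n, b, hn, hb0, hbi, hba, hbC⟩ := Match.circ_fn hc2 hv2 hx2
      obtain ⟨i, j, hi0, him, _, hjn, hij⟩ := hno m n a b hm hn hai hbi
        (fun i hi => ⟨(mem_sdiff.mp (hC1 (haC i hi))).2, haa i hi⟩)
        (fun i hi => ⟨(mem_sdiff.mp (hC2 (hbC i hi))).2, hba i hi⟩) (ha0.trans hb0.symm)
      refine ⟨a i, haC i him, hij ▸ hbC j hjn, fun h => ?_⟩
      have := hai i 0 him (by omega) (h.trans ha0.symm)
      omega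
    · refine Match.match_many hirr hf c univ T (subset_univ _) (by omega) ?_ hcol'
      intro S hS hn
      refine ac_of_sinks fun S' hS' hne => ?_
      by_contra hcon
      push Not at hcon
      obtain ⟨v, hv, hfv, hne'⟩ := hcov S' hne (by
        rw [disjoint_left]
        exact fun x hx hxT => (mem_sdiff.mp (hS (hS' hx))).2 hxT) hcon
      exact hne' (hn v (hS' hv) (hS' hfv))
  exact hneck.concl (le_refl 2)

end Pool.Agent.Results.MP_c62493_co.MatchingCover
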