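import Mathlib
import Pool.Agent.Lib.NK.Conv

set_option autoImplicit false

namespace Pool.Agent.Results.MP_c62493_co.TwoStrongReduction

open Finset Pool.Agent.Lib.NK
open scoped Classical

/-- For every `k ≥ 2`: if a finite loopless digraph `G` that cannot be `k`-coloured with acyclic
colour classes contains no subdivision of a bioriented cycle of length at least 3, then there is
such a digraph `H` on at most as many vertices which has at least three vertices, stays strongly
connected when any one vertex is deleted, and in which the out-neighbourhood and the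
in-neighbourhood of every vertex are acyclic. -/
theorem result :
    ∀ (k : ℕ), 2 ≤ k → ∀ (V : Type) [Fintype V] (G : Digraph V),
      (∀ v, ¬ G.Adj v v) →
      (∀ c : V → Fin k, ∃ S : Finset V, S.Nonempty ∧
          (∀ u ∈ S, ∀ v ∈ S, c u = c v) ∧ (∀ u ∈ S, ∃ v ∈ S, G.Adj u v)) →
      (¬ ∃ (ℓ : ℕ) (b : ℕ → V) (n : ℕ → Bool → ℕ) (P : ℕ → Bool → ℕ → V),
        3 ≤ ℓ ∧
        (∀ i j, i < ℓ → j < ℓ → b i = b j → i = j) ∧
        (∀ i, i < ℓ → ∀ d, 1 ≤ n i d) ∧
        (∀ i, i < ℓ →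
          P i false 0 = b i ∧ P i false (n i false) = b ((i + 1) % ℓ) ∧
          P i true 0 = b ((i + 1) % ℓ) ∧ P i true (n i true) = b i) ∧
        (∀ i, i < ℓ → ∀ d, ∀ k, k < n i d → G.Adj (P i d k) (P i d (k + 1))) ∧
        (∀ i, i < ℓ → ∀ d, ∀ k, 0 < k → k < n i d → ∀ j, j < ℓ → P i d k ≠ b j) ∧
        (∀ i d k i' d' k', i < ℓ → i' < ℓ → 0 < k → k < n i d → 0 < k' → k' < n i' d' →
          P i d k = P i' d' k' → i = i' ∧ d = d' ∧ k = k')) →
      ∃ (W : Type) (_ : Fintype W) (H : Digraph W),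
        3 ≤ Fintype.card W ∧ Fintype.card W ≤ Fintype.card V ∧
        (∀ v, ¬ H.Adj v v) ∧
        (∀ c : W → Fin k, ∃ S : Finset W, S.Nonempty ∧
          (∀ u ∈ S, ∀ v ∈ S, c u = c v) ∧ (∀ u ∈ S, ∃ v ∈ S, H.Adj u v)) ∧
        (¬ ∃ (ℓ : ℕ) (b : ℕ → W) (n : ℕ → Bool → ℕ) (P : ℕ → Bool → ℕ → W),
          3 ≤ ℓ ∧
          (∀ i j, i < ℓ → j < ℓ → b i = b j → i = j) ∧
          (∀ i, i < ℓ → ∀ d, 1 ≤ n i d) ∧
          (∀ i, i < ℓ →
            P i false 0 = b i ∧ P i false (n i false) = b ((i + 1) % ℓ) ∧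
            P i true 0 = b ((i + 1) % ℓ) ∧ P i true (n i true) = b i) ∧
          (∀ i, i < ℓ → ∀ d, ∀ k, k < n i d → H.Adj (P i d k) (P i d (k + 1))) ∧
          (∀ i, i < ℓ → ∀ d, ∀ k, 0 < k → k < n i d → ∀ j, j < ℓ → P i d k ≠ b j) ∧
          (∀ i d k i' d' k', i < ℓ → i' < ℓ → 0 < k → k < n i d → 0 < k' → k' < n i' d' →
            P i d k = P i' d' k' → i = i' ∧ d = d' ∧ k = k')) ∧
        (∀ z a b, a ≠ z → b ≠ z →
          Relation.ReflTransGen (fun x y => H.Adj x y ∧ y ≠ z) a b) ∧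
        (∀ v, ∀ S : Finset W, S.Nonempty → (∀ u ∈ S, H.Adj v u) →
          ∃ u ∈ S, ∀ w ∈ S, ¬ H.Adj u w) ∧
        (∀ v, ∀ S : Finset W, S.Nonempty → (∀ u ∈ S, H.Adj u v) →
          ∃ u ∈ S, ∀ w ∈ S, ¬ H.Adj u w) := by
  intro k hk V _ G hirr hcol hno
  obtain ⟨k, rfl⟩ : ∃ m, k = m + 2 := ⟨k - 2, by omega⟩
  have hN : ¬ Neck G.Adj := fun h => hno h.concl
  by_contra hcon
  have hred := reduce (V := V) (k := k) (fun _ _ => True) (fun _ _ _ _ _ _ _ => trivial)
    (by
      intro R S _ hirr' h2 hN'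
      by_contra hnc
      apply hcon
      have h2' : TwoStr (Rin R S) S := h2.rin
      have hirr2 : ∀ v, ¬ Rin R S v v := fun v hv => hirr' v hv.1
      refine ⟨{x // x ∈ S}, inferInstance, ⟨fun a b => R a.1 b.1⟩, ?_, ?_, ?_, ?_, ?_, ?_, ?_, ?_⟩
      · rw [Fintype.card_coe]; exact h2.1
      · rw [Fintype.card_coe]; exact card_le_univ S
      · intro v; exact hirr' v.1
      · intro c
        by_contra hc
        apply hnc
        refine ⟨fun v => if h : v ∈ S then c ⟨v, h⟩ else 0, ?_⟩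
        intro F hF hm
        by_contra hac
        obtain ⟨g, hg, hC, x, hx, y, hy, hxy⟩ := exists_circ_of_not_ac hirr' hac
        apply hc
        refine ⟨g.attach.image (fun z => (⟨z.1, hF (hg z.2)⟩ : {x // x ∈ S})), ?_, ?_, ?_⟩
        · exact ⟨⟨x, hF (hg hx)⟩, mem_image.mpr ⟨⟨x, hx⟩, mem_attach _ _, rfl⟩⟩
        · intro u hu v hv
          rw [mem_image] at hu hv
          obtain ⟨⟨a, ha⟩, _, rfl⟩ := hu
          obtain ⟨⟨b, hb⟩, _, rfl⟩ := hv
          have := hm a (hg ha) b (hg hb)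
          simpa only [dif_pos (hF (hg ha)), dif_pos (hF (hg hb))] using this
        · intro u hu
          rw [mem_image] at hu
          obtain ⟨⟨a, ha⟩, _, rfl⟩ := hu
          obtain ⟨v, hv, hav⟩ : ∃ v ∈ g, a ≠ v := by
            by_cases h : a = x
            · exact ⟨y, hy, fun h' => hxy (h.symm.trans h')⟩
            · exact ⟨x, hx, h⟩
          rcases (hC.link ha hv hav).rc.cases_head with h | ⟨w, hw, h⟩
          · exact absurd h hav
          · exact ⟨⟨w, hF (hg h.left)⟩, mem_image.mpr ⟨⟨w, h.left⟩, mem_attach _ _, rfl⟩, hw⟩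
      · intro hcl
        have hcl' : Concl (fun a b : {x // x ∈ S} => R a.1 b.1) := hcl
        exact hN' (hcl'.map (R := Rin R S) Subtype.val_injective
          (fun a b hab => ⟨hab, a.2, b.2⟩)).neck
      · rintro ⟨z, hz⟩ ⟨a, ha⟩ ⟨b, hb⟩ haz hbz
        have haz' : a ≠ z := fun h => haz (Subtype.ext h)
        have hbz' : b ≠ z := fun h => hbz (Subtype.ext h)
        have hr := h2.2 z hz a (mem_erase.mpr ⟨haz', ha⟩) b (mem_erase.mpr ⟨hbz', hb⟩)
        have key : ∀ hb : b ∈ S, Relation.ReflTransGen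
            (fun x y : {x // x ∈ S} => R x.1 y.1 ∧ y ≠ ⟨z, hz⟩) ⟨a, ha⟩ ⟨b, hb⟩ := by
          refine Rc.induct (p := fun b => ∀ hb : b ∈ S, Relation.ReflTransGen
            (fun x y : {x // x ∈ S} => R x.1 y.1 ∧ y ≠ ⟨z, hz⟩) ⟨a, ha⟩ ⟨b, hb⟩) ?_ ?_ hr
          · intro _ _; exact Relation.ReflTransGen.refl
          · intro p q hp ih hpq hq hqS
            have hpS : p ∈ S := (mem_erase.mp hp.right).2
            refine (ih hpS).tail ⟨hpq, ?_⟩
            intro h
            exact (mem_erase.mp hq).1 (congrArg Subtype.val h)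
        exact key hb
      · intro v T hT hTv
        by_contra hcon'
        push Not at hcon'
        have hac := h2'.out_ac hirr2 hN' v.2
        refine hac.sink (S := T.image Subtype.val) ?_ (hT.image _) ?_
        · intro u hu
          rw [mem_image] at hu
          obtain ⟨⟨a, ha⟩, ha', rfl⟩ := hu
          rw [mem_filter]
          exact ⟨ha, hTv _ ha', v.2, ha⟩
        · intro u hu
          rw [mem_image] at hu
          obtain ⟨⟨a, ha⟩, ha', rfl⟩ := hu
          obtain ⟨w, hw, haw⟩ := hcon' _ ha'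
          exact ⟨w.1, mem_image_of_mem _ hw, haw, ha, w.2⟩
      · intro v T hT hTv
        by_contra hcon'
        push Not at hcon'
        have hac := h2'.in_ac hirr2 hN' v.2
        refine hac.sink (S := T.image Subtype.val) ?_ (hT.image _) ?_
        · intro u hu
          rw [mem_image] at hu
          obtain ⟨⟨a, ha⟩, ha', rfl⟩ := hu
          rw [mem_filter]
          exact ⟨ha, hTv _ ha', ha, v.2⟩
        · intro u hu
          rw [mem_image] at hu
          obtain ⟨⟨a, ha⟩, ha', rfl⟩ := hu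
          obtain ⟨w, hw, haw⟩ := hcon' _ ha'
          exact ⟨w.1, mem_image_of_mem _ hw, haw, ha, w.2⟩)
    (univ : Finset V).card G.Adj univ (le_refl _) trivial hirr
    (fun h => hN (h.monoR (fun a b hab => hab.1)))
  refine hred.false (fun c => ?_)
  obtain ⟨F, hne, hm, hs⟩ := hcol c
  exact ⟨F, subset_univ F, hne, hm, hs⟩

end Pool.Agent.Results.MP_c62493_co.TwoStrongReduction
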